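import Pool.Agent.P.MP_d76e6a_co.HAll
import Pool.Agent.P.MP_d76e6a_co.HLen
import Pool.Agent.P.MP_d76e6a_co.WMain
import Pool.Agent.P.MP_d76e6a_co.ZMain

/-!
Bellman's lost-in-a-forest problem for triangles: a shortest escape path is the optimal symmetric
convex arc or a zigzag of one of four families.
-/

namespace Pool.Agent.Results.MP_d76e6a_co.AllTriangles

open Real EuclideanGeometry Pool.Agent.P.MP_d76e6a_co

theorem result (X Y Z : ℂ) (hT : AffineIndependent ℝ ![X, Y, Z]) (A B h : ℝ)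
    (hA : A = ∠ Y X Z) (hB : B = ∠ X Y Z) (hh : h = dist X Z * sin A) (h1 : A ≤ B)
    (h2 : B ≤ ∠ X Z Y) :
    (∃ η, Opt A B η) ∧ ∀ η, Opt A B η →
      pathLength (arc A B η h) = ENNReal.ofReal (2 * h / pay A B η) ∧
      (∀ C, Cand A B η C → IsEscapePath (interior (convexHull ℝ {X, Y, Z})) (C h) ∧
        ∀ w, h < w → IsEscapePath (convexHull ℝ {X, Y, Z}) (C w)) ∧
      ∃ C, Cand A B η C ∧ escapeLength (convexHull ℝ {X, Y, Z}) = pathLength (C h) ∧
        escapeLength (interior (convexHull ℝ {X, Y, Z})) = pathLength (C h) := by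
  have a := ang_of hT hA hB h1 h2
  obtain ⟨e, H⟩ := all_of_core hT hA hB hh a (full_or_core a fun z g => zone_of cov_zone cov_all a z g)
  exact ⟨e, fun η o => ⟨arc_len_eq o.1 (o.gval ▸ gval_pos a.h0 (a.h0.trans_le a.h1)
    (by linarith [a.h0, a.h1, a.h2])) (std_pair hT hA hB hh).1.hpos.le, H η o⟩⟩

end Pool.Agent.Results.MP_d76e6a_co.AllTriangles
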