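import Pool.Agent.P.MP_d76e6a_co.YAll
import Pool.Agent.P.MP_d76e6a_co.XZal
import Pool.Agent.P.MP_d76e6a_co.HEdef
import Pool.Agent.P.MP_d76e6a_co.HExp
import Pool.Agent.P.MP_d76e6a_co.WMain
import Pool.Agent.P.MP_d76e6a_co.ZMain

/-!
Bellman's lost-in-a-forest problem for triangles: the shapes for which a shortest escape path is
given by finitely many equations.
-/

namespace Pool.Agent.Results.MP_d76e6a_co.ExplicitShapes

open Real EuclideanGeometry Pool.Agent.P.MP_d76e6a_co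

theorem result (X Y Z : ℂ) (hT : AffineIndependent ℝ ![X, Y, Z]) (A B h : ℝ)
    (hA : A = ∠ Y X Z) (hB : B = ∠ X Y Z) (hh : h = dist X Z * sin A)
    (hR : (∃ T, Region T A B) ∨ (A ≤ B ∧ B ≤ ∠ X Z Y ∧ InZ zW A B)) :
    ∃ C, Expl A B h C ∧ escapeLength (convexHull ℝ {X, Y, Z}) = pathLength (C h) ∧
      escapeLength (interior (convexHull ℝ {X, Y, Z})) = pathLength (C h) ∧
      IsEscapePath (interior (convexHull ℝ {X, Y, Z})) (C h) ∧
      ∀ w, h < w → IsEscapePath (convexHull ℝ {X, Y, Z}) (C w) := by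
  rcases hR with ⟨T, hR⟩ | ⟨h1, h2, z⟩
  · obtain ⟨x, s, e1, e2, e3, e4, e5⟩ : ∃ x : Sol, Sys T A B x ∧
        escapeLength (convexHull ℝ {X, Y, Z}) = ENNReal.ofReal (len T A B x * h) ∧
        escapeLength (interior (convexHull ℝ {X, Y, Z})) = ENNReal.ofReal (len T A B x * h) ∧
        IsEscapePath (interior (convexHull ℝ {X, Y, Z})) (curve T A B x h) ∧
        pathLength (curve T A B x h) = ENNReal.ofReal (len T A B x * h) ∧
        ∀ w, h < w → IsEscapePath (convexHull ℝ {X, Y, Z}) (curve T A B x w) := by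
      rcases hR with ⟨rfl, hAB, z1, z2⟩ | ⟨c, hc, p, q, hpq, hs⟩
      · exact ⟨zSol, zal_result hT hA hB hh hAB z1 z2⟩
      · have hnc : ¬Collinear ℝ {X, Y, Z} := affineIndependent_iff_not_collinear_set.1 hT
        have A0 : 0 < A := hA ▸ angle_pos_of_not_collinear (by rwa [Set.insert_comm] at hnc)
        have B0 : 0 < B := hB ▸ angle_pos_of_not_collinear hnc
        obtain ⟨x, g⟩ := cg_strip (table_ok (T, c) hc p q hpq) hs A0 B0
        exact ⟨x, g.sys, g.result hT hA hB hh⟩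
    exact ⟨_, Or.inl ⟨T, x, hR, s, rfl⟩, e1.trans e4.symm, e2.trans e4.symm, e3, e5⟩
  · have a := ang_of hT hA hB h1 h2
    obtain ⟨l, hl, m, e⟩ := zig_wins hT hA hB hh a
      (full_or_core a fun z g => zone_of cov_zone cov_all a z g) z
    exact ⟨_, Or.inr ⟨z, l, hl, rfl, m⟩, e⟩

end Pool.Agent.Results.MP_d76e6a_co.ExplicitShapes
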